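import Pool.Agent.Helper676.GF2
import Pool.Agent.Helper676.GF12
import Pool.Agent.Helper676.GFH
import Pool.Agent.Y490.GO.Primal
import Pool.Agent.Y490.GO.Cells

set_option autoImplicit false

/-!
# MP_9ca4ac_an: a polyharmonic Green function that is unbounded near every boundary point

For `m = 4`, `n = 22`, every non-empty open set of `ℝⁿ` contains a dense open subset `Ω` such that
`sup |G_m^Ω(x,y)| |x-y|^{n-2m}` over all `x ≠ y` in this one `Ω` is infinite, and remains infinite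
if `x, y` are restricted to an arbitrarily small neighbourhood of ANY boundary point of `Ω`.  So the
bound `|G_m(x,y)| ≤ C |x-y|^{2m-n}` fails even with constants `C` depending on the domain, and
locally at every boundary point.
-/

namespace Pool.Agent.Results.MP_9ca4ac_an.EveryBoundaryPoint

open MeasureTheory Filter Topology Set
open scoped ContDiff

/-- Euclidean space `ℝⁿ`. -/
abbrev E (n : ℕ) := EuclideanSpace ℝ (Fin n)

variable {n : ℕ}

/-- The Laplacian `Δu = ∑ᵢ ∂ᵢ∂ᵢu`. -/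
noncomputable def lap (u : E n → ℝ) (x : E n) : ℝ :=
  ∑ i : Fin n, fderiv ℝ (fun y => fderiv ℝ u y (EuclideanSpace.single i 1)) x
    (EuclideanSpace.single i 1)

/-- The polyharmonic operator `(-Δ)^m`. -/
noncomputable def polyLap (m : ℕ) (u : E n → ℝ) : E n → ℝ :=
  (fun v x => -lap v x)^[m] u

/-- `φ ∈ C₀^∞(Ω)`. -/
structure IsTest (Ω : Set (E n)) (φ : E n → ℝ) : Prop where
  smooth : ContDiff ℝ ∞ φ
  compact : HasCompactSupport φ
  supp : tsupport φ ⊆ Ω

/-- `u ∈ W̊^{m,2}(Ω)`, the completion of `C₀^∞(Ω)` in the norm `‖∇^m u‖_{L²}` (a space of functions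
when `n > 2m`): `u` is the `L¹_loc(Ω)` limit of a sequence in `C₀^∞(Ω)` which is Cauchy in that
norm. -/
structure MemW0 (m : ℕ) (Ω : Set (E n)) (u : E n → ℝ) : Prop where
  locInt : LocallyIntegrableOn u Ω
  limit : ∃ φ : ℕ → E n → ℝ, (∀ j, IsTest Ω (φ j)) ∧
    (∀ ε > 0, ∃ j₀, ∀ j ≥ j₀, ∀ k ≥ j₀,
      ∫ x, ‖iteratedFDeriv ℝ m (fun z => φ j z - φ k z) x‖ ^ 2 ≤ ε) ∧
    ∀ L, IsCompact L → L ⊆ Ω → Tendsto (fun j => ∫ x in L, |φ j x - u x|) atTop (𝓝 0)

/-- `(-Δ)^m u = f` weakly in `Ω`. -/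
def WeakSol (m : ℕ) (Ω : Set (E n)) (f u : E n → ℝ) : Prop :=
  ∀ ψ, IsTest Ω ψ → ∫ x in Ω, u x * polyLap m ψ x = ∫ x in Ω, f x * ψ x

/-- `G` is the Green function of the Dirichlet problem for `(-Δ)^m` in `Ω`: it is the kernel of the
solution operator, i.e. for every `f ∈ C₀^∞(Ω)` the function `u(x) = ∫_Ω G(x,y) f(y) dy` belongs to
`W̊^{m,2}(Ω)` and solves `(-Δ)^m u = f` weakly in `Ω`. -/
def IsGreen (m : ℕ) (Ω : Set (E n)) (G : E n → E n → ℝ) : Prop :=
  ∀ f, IsTest Ω f → MemW0 m Ω (fun x => ∫ y in Ω, G x y * f y) ∧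
    WeakSol m Ω f (fun x => ∫ y in Ω, G x y * f y)

open Pool.Agent.Helper676
open Pool.Agent.Y490.GO

lemma lap_eq : (lap : (E n → ℝ) → E n → ℝ) = GF.lap := rfl

lemma lap_neg (u : E n → ℝ) : lap (fun x => -u x) = fun x => -lap u x := by
  ext x
  unfold lap
  rw [← Finset.sum_neg_distrib]
  apply Finset.sum_congr rfl
  intro i _
  have h1 : (fun y => fderiv ℝ (fun x => -u x) y (EuclideanSpace.single i 1)) =
      fun y => -(fderiv ℝ u y (EuclideanSpace.single i 1)) := by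
    ext y
    rw [fderiv_fun_neg]
    rfl
  rw [h1, fderiv_fun_neg]
  rfl

lemma polyLap_four (u : E n → ℝ) : polyLap 4 u = GF.lap4 u := by
  have e : polyLap 4 u = fun x => -lap (fun x => -lap (fun x => -lap (fun x => -lap u x) x) x) x :=
    rfl
  rw [e, lap_neg (lap fun x => -lap (fun x => -lap u x) x)]
  simp only [neg_neg]
  rw [lap_neg (lap u)]
  simp only [neg_neg]
  rfl

lemma nat_le (k : ℕ) : (k : ℕ∞ω) ≤ ∞ := by exact_mod_cast le_top

lemma four_le : ((4 : ℕ) : ℕ∞ω) ≤ ∞ := nat_le 4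

lemma test_sq {φ : E 22 → ℝ} (hφ : ContDiff ℝ ∞ φ) (hc : HasCompactSupport φ) :
    Integrable (fun x => ‖iteratedFDeriv ℝ 4 φ x‖ ^ 2) := by
  apply Continuous.integrable_of_hasCompactSupport
  · exact (hφ.continuous_iteratedFDeriv (m := 4) four_le).norm.pow 2
  · have h1 : HasCompactSupport (fun x => ‖iteratedFDeriv ℝ 4 φ x‖) := (hc.iteratedFDeriv 4).norm
    exact h1.comp_left (g := fun t : ℝ => t ^ 2) (by norm_num)

lemma d4_diff_le {φ : E 22 → ℝ} (hφ : ContDiff ℝ ∞ φ) (hc : HasCompactSupport φ) :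
    ∫ x, (GF.lap (GF.lap φ) x) ^ 2 ≤ 22 ^ 4 * ∫ x, ‖iteratedFDeriv ℝ 4 φ x‖ ^ 2 := by
  rw [← integral_const_mul]
  apply integral_mono_of_nonneg
  · exact Eventually.of_forall fun x => sq_nonneg _
  · exact (test_sq hφ hc).const_mul _
  · apply Eventually.of_forall
    intro x
    have h4 := GF.lap2_le hφ x
    push_cast at h4
    show (GF.lap (GF.lap φ) x) ^ 2 ≤ 22 ^ 4 * ‖iteratedFDeriv ℝ 4 φ x‖ ^ 2
    calc (GF.lap (GF.lap φ) x) ^ 2 = |GF.lap (GF.lap φ) x| ^ 2 := (sq_abs _).symm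
      _ ≤ (22 ^ 2 * ‖iteratedFDeriv ℝ 4 φ x‖) ^ 2 := by gcongr
      _ = _ := by ring

/-- uniqueness in `W̊^{4,2}(Ω)` -/
lemma unique {Ω : Set (E 22)} (hΩ : IsOpen Ω) {f u v : E 22 → ℝ} (hu : MemW0 4 Ω u)
    (hus : WeakSol 4 Ω f u) (hv : MemW0 4 Ω v) (hvs : WeakSol 4 Ω f v) :
    ∀ᵐ x ∂(volume.restrict Ω), v x = u x := by
  obtain ⟨φ, hφ, hφC, hφL⟩ := hv.limit
  obtain ⟨ψ, hψ, hψC, hψL⟩ := hu.limit
  have hs : ∀ j, IsTest Ω (fun z => φ j z - ψ j z) := fun j =>
    ⟨(hφ j).smooth.sub (hψ j).smooth, (hφ j).compact.sub (hψ j).compact,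
      (tsupport_sub (φ j) (ψ j)).trans (union_subset (hφ j).supp (hψ j).supp)⟩
  have hw : ∀ᵐ x ∂(volume.restrict Ω), (fun x => v x - u x) x = 0 := by
    apply GF.uniq hΩ (hv.locInt.sub hu.locInt) (φ := fun j z => φ j z - ψ j z)
      (fun j => ⟨(hs j).smooth, (hs j).compact, (hs j).supp⟩)
    · intro ε hε
      obtain ⟨j1, h1⟩ := hφC (ε / (4 * 22 ^ 4)) (by positivity)
      obtain ⟨j2, h2⟩ := hψC (ε / (4 * 22 ^ 4)) (by positivity)
      refine ⟨max j1 j2, fun j hj k hk => ?_⟩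
      have h3 := h1 j ((le_max_left _ _).trans hj) k ((le_max_left _ _).trans hk)
      have h4 := h2 j ((le_max_right _ _).trans hj) k ((le_max_right _ _).trans hk)
      have s1 : ContDiff ℝ ∞ (fun z => φ j z - φ k z) := (hφ j).smooth.sub (hφ k).smooth
      have c1 : HasCompactSupport (fun z => φ j z - φ k z) := (hφ j).compact.sub (hφ k).compact
      have s2 : ContDiff ℝ ∞ (fun z => ψ j z - ψ k z) := (hψ j).smooth.sub (hψ k).smooth
      have c2 : HasCompactSupport (fun z => ψ j z - ψ k z) := (hψ j).compact.sub (hψ k).compact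
      have h5 := (d4_diff_le s1 c1).trans (mul_le_mul_of_nonneg_left h3 (by norm_num))
      have h6 := (d4_diff_le s2 c2).trans (mul_le_mul_of_nonneg_left h4 (by norm_num))
      obtain ⟨a1, a2, -⟩ := GF.lap_test s1 c1 (subset_univ _)
      obtain ⟨b1, b2, -⟩ := GF.lap_test a1 a2 (subset_univ _)
      obtain ⟨a1', a2', -⟩ := GF.lap_test s2 c2 (subset_univ _)
      obtain ⟨b1', b2', -⟩ := GF.lap_test a1' a2' (subset_univ _)
      have i1 := GF.sq_int b1 b2
      have i2 := GF.sq_int b1' b2'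
      have e : (fun z => (φ j z - ψ j z) - (φ k z - ψ k z)) =
          fun z => 1 * (φ j z - φ k z) + (-1) * (ψ j z - ψ k z) := by ext z; ring
      have hle : ∫ x, (GF.lap (GF.lap (fun z => (φ j z - ψ j z) - (φ k z - ψ k z))) x) ^ 2 ≤
          ∫ x, (2 * (GF.lap (GF.lap (fun z => φ j z - φ k z)) x) ^ 2 +
            2 * (GF.lap (GF.lap (fun z => ψ j z - ψ k z)) x) ^ 2) := by
        apply integral_mono_of_nonneg
        · exact Eventually.of_forall fun x => sq_nonneg _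
        · exact (i1.const_mul 2).add (i2.const_mul 2)
        · apply Eventually.of_forall
          intro x
          have h7 := GF.lap2_lin isOpen_univ s1.contDiffOn s2.contDiffOn 1 (-1) (mem_univ x)
          rw [← e] at h7
          simp only
          rw [h7]
          nlinarith [sq_nonneg (GF.lap (GF.lap (fun z => φ j z - φ k z)) x +
            GF.lap (GF.lap (fun z => ψ j z - ψ k z)) x)]
      rw [integral_add (i1.const_mul 2) (i2.const_mul 2), integral_const_mul,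
        integral_const_mul] at hle
      have h8 : (22 : ℝ) ^ 4 * (ε / (4 * 22 ^ 4)) = ε / 4 := by field_simp
      rw [h8] at h5 h6
      linarith
    · intro L hLc hLΩ
      have h1 := (hφL L hLc hLΩ).add (hψL L hLc hLΩ)
      rw [add_zero] at h1
      refine squeeze_zero (fun j => integral_nonneg fun x => abs_nonneg _) (fun j => ?_) h1
      have iv : IntegrableOn v L := hv.locInt.integrableOn_compact_subset hLΩ hLc
      have iu : IntegrableOn u L := hu.locInt.integrableOn_compact_subset hLΩ hLc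
      have iφ : IntegrableOn (φ j) L :=
        (hφ j).smooth.continuous.continuousOn.integrableOn_compact hLc
      have iψ : IntegrableOn (ψ j) L :=
        (hψ j).smooth.continuous.continuousOn.integrableOn_compact hLc
      have i1 : IntegrableOn (fun x => |φ j x - v x|) L := (iφ.sub iv).abs
      have i2 : IntegrableOn (fun x => |ψ j x - u x|) L := (iψ.sub iu).abs
      rw [← integral_add i1 i2]
      apply integral_mono_of_nonneg
      · exact Eventually.of_forall fun x => abs_nonneg _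
      · exact i1.add i2
      · apply Eventually.of_forall
        intro x
        show |(φ j x - ψ j x) - (v x - u x)| ≤ |φ j x - v x| + |ψ j x - u x|
        calc |(φ j x - ψ j x) - (v x - u x)| = |(φ j x - v x) - (ψ j x - u x)| := by
              congr 1; ring
          _ ≤ _ := abs_sub _ _
    · intro θ h1 h2 h3
      have h4 := hvs θ ⟨h1, h2, h3⟩
      have h5 := hus θ ⟨h1, h2, h3⟩
      rw [polyLap_four] at h4 h5
      obtain ⟨b1, b2, b3⟩ := GF.lap_test h1 h2 h3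
      obtain ⟨c1, c2, c3⟩ := GF.lap_test b1 b2 b3
      obtain ⟨d1, d2, d3⟩ := GF.lap_test c1 c2 c3
      obtain ⟨e1, e2, e3⟩ := GF.lap_test d1 d2 d3
      have hint : ∀ w : E 22 → ℝ, LocallyIntegrableOn w Ω →
          IntegrableOn (fun x => w x * GF.lap4 θ x) Ω := by
        intro w hw
        have hwK : IntegrableOn w (tsupport (GF.lap4 θ)) :=
          hw.integrableOn_compact_subset e3 e2.isCompact
        obtain ⟨M, hM⟩ := e2.exists_bound_of_continuous e1.continuous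
        have h7 : IntegrableOn (fun x => w x * GF.lap4 θ x) (tsupport (GF.lap4 θ)) := by
          apply Integrable.mul_bdd (c := M) hwK e1.continuous.aestronglyMeasurable
          exact Eventually.of_forall hM
        have h8 : Integrable (fun x => w x * GF.lap4 θ x) := by
          rw [← integrableOn_iff_integrable_of_support_subset (s := tsupport (GF.lap4 θ))]
          · exact h7
          · intro x hx
            by_contra h
            apply hx
            show w x * GF.lap4 θ x = 0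
            rw [image_eq_zero_of_notMem_tsupport h, mul_zero]
        exact h8.integrableOn
      have e : (fun x => (v x - u x) * GF.lap4 θ x) =
          fun x => v x * GF.lap4 θ x - u x * GF.lap4 θ x := by ext x; ring
      show ∫ x in Ω, (v x - u x) * GF.lap4 θ x = 0
      rw [e, integral_sub (hint v hv.locInt) (hint u hu.locInt), h4, h5, sub_self]
  filter_upwards [hw] with x hx
  exact sub_eq_zero.1 hx

/-- the consequences of a piece -/
lemma of_piece {C' : ℝ} {Ω : Set (E 22)} {f u : E 22 → ℝ} (h : Piece C' Ω f u) :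
    IsTest Ω f ∧ ContDiffOn ℝ ∞ u Ω ∧ MemW0 4 Ω u ∧ WeakSol 4 Ω f u := by
  refine ⟨⟨h.fs, h.fc, h.fsupp⟩, h.us, ?_, ?_⟩
  · obtain ⟨ψ, hψ, ⟨e, he, hee⟩, hψL⟩ := h.lim
    refine ⟨h.us.continuousOn.locallyIntegrableOn h.isOpen.measurableSet, ψ,
      fun j => ⟨(hψ j).1, (hψ j).2.1, (hψ j).2.2⟩, ?_, hψL⟩
    intro ε hε
    have h1 := he.eventually_lt_const (show (0 : ℝ) < ε / (2 * 22 ^ 4) by positivity)
    obtain ⟨j₀, hj₀⟩ := eventually_atTop.1 h1
    refine ⟨j₀, fun j hj k hk => ?_⟩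
    have s1 : ContDiff ℝ ∞ (fun z => ψ j z - ψ k z) := (hψ j).1.sub (hψ k).1
    have c1 : HasCompactSupport (fun z => ψ j z - ψ k z) := (hψ j).2.1.sub (hψ k).2.1
    have h2 := GF.d4_energy s1 c1
    have h3 := hee j k
    have h4 := hj₀ j hj
    have h5 := hj₀ k hk
    calc ∫ x, ‖iteratedFDeriv ℝ 4 (fun z => ψ j z - ψ k z) x‖ ^ 2
        ≤ 22 ^ 4 * ∫ x, (GF.lap (GF.lap (fun z => ψ j z - ψ k z)) x) ^ 2 := h2
      _ ≤ 22 ^ 4 * (ε / (2 * 22 ^ 4) + ε / (2 * 22 ^ 4)) := by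
          gcongr
          linarith
      _ = ε := by field_simp; ring
  · intro θ hθ
    rw [polyLap_four]
    exact h.weak θ hθ.smooth hθ.compact hθ.supp

lemma hker (x y : E 22) : ‖x - y‖ ^ (2 * ((4 : ℕ) : ℤ) - ((22 : ℕ) : ℤ)) =
      ((‖x - y‖ ^ 2) ^ 7)⁻¹ := by
  rw [← pow_mul]
  norm_num

/-- the Green function of the domain of a piece violates the bound with the constant of the
piece, at points of any set `W` that carries the data of the piece -/
lemma green_piece {C' : ℝ} (hC1 : 0 < C') {Ω : Set (E 22)} {f u : E 22 → ℝ}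
    (h : Piece C' Ω f u) {W : Set (E 22)} (hfW : tsupport f ⊆ W) (huW : ∀ x, x ∉ W → u x = 0)
    {G : E 22 → E 22 → ℝ} (hG : IsGreen 4 Ω G) :
    ∃ x ∈ Ω ∩ W, ∃ y ∈ Ω ∩ W, x ≠ y ∧
      C' * ‖x - y‖ ^ (2 * ((4 : ℕ) : ℤ) - ((22 : ℕ) : ℤ)) < |G x y| := by
  have hΩo := h.isOpen
  obtain ⟨hf, hus, hMem, hWeak⟩ := of_piece h
  obtain ⟨hf1, hf2, hf3⟩ := hf
  obtain ⟨x₀, hx₀, hx₀u⟩ := h.pt
  have hfa : Continuous (fun x => |f x|) := hf1.continuous.abs
  have hfac : HasCompactSupport (fun x => |f x|) := hf2.abs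
  have hint : ∀ x : E 22, Integrable (fun y => ((‖x - y‖ ^ 2) ^ 7)⁻¹ * |f y|) := fun x =>
    GF.cv_int (fun z : E 22 => ((‖z‖ ^ 2) ^ 7)⁻¹) GF.ker_li (fun x => |f x|) hfa hfac x
  have hIΩ : ∀ x : E 22, ∫ y in Ω, ((‖x - y‖ ^ 2) ^ 7)⁻¹ * |f y| =
      ∫ y, ((‖x - y‖ ^ 2) ^ 7)⁻¹ * |f y| := by
    intro x
    apply setIntegral_eq_integral_of_forall_compl_eq_zero
    intro y hy
    rw [image_eq_zero_of_notMem_tsupport (fun h => hy (hf3 h)), abs_zero, mul_zero]
  obtain ⟨h1, h2⟩ := hG f ⟨hf1, hf2, hf3⟩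
  have h3 := unique hΩo hMem hWeak h1 h2
  -- the open set where the bound fails
  obtain ⟨A, hA⟩ : ∃ A : E 22 → ℝ, A = fun x => C' * ∫ y, ((‖x - y‖ ^ 2) ^ 7)⁻¹ * |f y| :=
    ⟨_, rfl⟩
  have hAc : Continuous A := by
    rw [hA]; exact continuous_const.mul (GF.conv_cont hfa hfac)
  have hUo : IsOpen (Ω ∩ {x | A x < |u x|}) := by
    have hc : ContinuousOn (fun x => |u x| - A x) Ω :=
      hus.continuousOn.abs.sub hAc.continuousOn
    have h4 := hc.isOpen_inter_preimage hΩo (isOpen_Ioi (a := (0 : ℝ)))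
    convert h4 using 2
    ext x
    simp [sub_pos]
  have hUne : (Ω ∩ {x | A x < |u x|}).Nonempty := ⟨x₀, hx₀, by rw [hA]; exact hx₀u⟩
  have hUpos : 0 < volume (Ω ∩ {x | A x < |u x|}) := hUo.measure_pos volume hUne
  obtain ⟨x, ⟨hxΩ, hxA⟩, hxv⟩ : ∃ x ∈ Ω ∩ {x | A x < |u x|},
      (∫ y in Ω, G x y * f y) = u x := by
    by_contra hcon
    push Not at hcon
    rw [ae_restrict_iff' hΩo.measurableSet] at h3
    have h5 : Ω ∩ {x | A x < |u x|} ⊆ {x | ¬ (x ∈ Ω → (∫ y in Ω, G x y * f y) = u x)} := by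
      intro x hx h6
      exact hcon x hx (h6 hx.1)
    have h6 := measure_mono_null h5 h3
    exact hUpos.ne' h6
  have hxW : x ∈ W := by
    by_contra hxW
    have h8 : A x < |u x| := hxA
    rw [huW x hxW, abs_zero, hA] at h8
    have h9 : 0 ≤ ∫ y, ((‖x - y‖ ^ 2) ^ 7)⁻¹ * |f y| := integral_nonneg fun y => by positivity
    simp only at h8
    nlinarith
  by_contra hcon
  push Not at hcon
  have h7 : |∫ y in Ω, G x y * f y| ≤ A x := by
    rw [hA]
    calc |∫ y in Ω, G x y * f y| ≤ ∫ y in Ω, ‖G x y * f y‖ := by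
          rw [← Real.norm_eq_abs]; exact norm_integral_le_integral_norm _
      _ ≤ ∫ y in Ω, C' * (((‖x - y‖ ^ 2) ^ 7)⁻¹ * |f y|) := by
          apply integral_mono_of_nonneg
          · exact Eventually.of_forall fun y => norm_nonneg _
          · exact ((hint x).const_mul C').integrableOn
          · have hne : ∀ᵐ y : E 22 ∂(volume.restrict Ω), y ≠ x := by
              apply ae_restrict_of_ae
              rw [ae_iff]; simp
            filter_upwards [hne, ae_restrict_mem hΩo.measurableSet] with y hy1 hy2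
            rw [norm_mul, Real.norm_eq_abs, Real.norm_eq_abs, ← mul_assoc]
            by_cases hfy : f y = 0
            · rw [hfy, abs_zero, mul_zero, mul_zero]
            · apply mul_le_mul_of_nonneg_right _ (abs_nonneg _)
              have h8 := hcon x ⟨hxΩ, hxW⟩ y ⟨hy2, hfW (subset_tsupport f hfy)⟩ (Ne.symm hy1)
              rw [hker] at h8
              exact h8
      _ = C' * ∫ y, ((‖x - y‖ ^ 2) ^ 7)⁻¹ * |f y| := by
          rw [integral_const_mul, hIΩ]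
  rw [hxv] at h7
  exact absurd h7 (not_le.2 hxA)

/-- the starting library provides bounded regular pieces for all constants -/
lemma pieces (C : ℝ) (hC : 0 < C) : ∃ R > 0, ∃ Ω f u, Piece C Ω f u ∧ Ω ⊆ Metric.ball 0 R ∧
    ∀ z, z ∉ Ω → z ∈ closure (closure Ω)ᶜ := by
  obtain ⟨s, hs1, hs2, hs⟩ := GF.exists_exponent
  have hx0 : ‖(EuclideanSpace.single 0 1 : E 22)‖ = 1 := by simp
  obtain ⟨f₀, Φc, V, τ, Vm, hτ, hf, hfc, hf0, hΦ, hΦc, hV0, hVm, hg, hsep, hlt⟩ :=
    GF.choose_data (GF.Rc 1 s) s.re 114912000 hs1 hs2 (by norm_num) (GF.contDiffOn_Rc 1 s)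
      (fun x hx => GF.lap4_Rc hs hx) (GF.Rc_bound s) (EuclideanSpace.single 0 1) hx0
      (by simp [GF.Rc, GF.Gc]) C hC
  obtain ⟨R, Ω, f, u, hR, hΩo, hΩR, hreg, hf1, hf2, hf3, hus, hlim, hweak, hpt⟩ :=
    primalB hτ hC.le hf hfc hf0 hΦ hΦc hV0 hVm hg hsep hlt
  exact ⟨R, hR, Ω, f, u, ⟨hΩo, hf1, hf2, hf3, hus, hlim, hweak, hpt⟩, hΩR, hreg⟩

/-- **One open set, all constants, every boundary point.** There are integers `m > 2`, `n ≥ 2m+3`
(namely `m = 4`, `n = 22`) such that every non-empty open set `U ⊆ ℝⁿ` contains a dense open subset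
`Ω`, with non-empty boundary, such that for EVERY boundary point `z` of `Ω`, every `r > 0` and every
constant `C` the Green function `G` of `Ω` violates `|G(x,y)| ≤ C |x-y|^{2m-n}` at some `x ≠ y` in
`Ω ∩ B(z,r)`. Moreover there are `f ∈ C₀^∞(Ω ∩ B(z,r))` and the solution `u ∈ W̊^{m,2}(Ω)` of
`(-Δ)^m u = f`, smooth in `Ω`, unique, and zero outside `B(z,r)`, with
`|u(x)| > C ∫_Ω |x-y|^{2m-n} |f(y)| dy` for some `x ∈ Ω ∩ B(z,r)`. -/
theorem result : ∃ m n : ℕ, 2 < m ∧ 2 * m + 3 ≤ n ∧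
    ∀ U : Set (E n), IsOpen U → U.Nonempty →
      ∃ Ω : Set (E n), Ω ⊆ U ∧ IsOpen Ω ∧ U ⊆ closure Ω ∧ (frontier Ω).Nonempty ∧
      ∀ z ∈ frontier Ω, ∀ r > 0, ∀ C : ℝ,
        (∀ G : E n → E n → ℝ, IsGreen m Ω G →
          ∃ x ∈ Ω ∩ Metric.ball z r, ∃ y ∈ Ω ∩ Metric.ball z r, x ≠ y ∧
            C * ‖x - y‖ ^ (2 * (m : ℤ) - n) < |G x y|) ∧
        ∃ f u : E n → ℝ, IsTest (Ω ∩ Metric.ball z r) f ∧ ContDiffOn ℝ ∞ u Ω ∧
          (∀ x, x ∉ Metric.ball z r → u x = 0) ∧ MemW0 m Ω u ∧ WeakSol m Ω f u ∧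
          (∀ v, MemW0 m Ω v → WeakSol m Ω f v → ∀ᵐ x ∂(volume.restrict Ω), v x = u x) ∧
          ∃ x ∈ Ω ∩ Metric.ball z r,
            C * ∫ y in Ω, ‖x - y‖ ^ (2 * (m : ℤ) - n) * |f y| < |u x| := by
  refine ⟨4, 22, by norm_num, by norm_num, ?_⟩
  intro U hU hne
  obtain ⟨Ω, hΩU, hΩo, hΩd, hΩf, hΩ⟩ := dense_domain pieces hU hne
  refine ⟨Ω, hΩU, hΩo, hΩd, hΩf, ?_⟩
  intro z hz r hr C
  have hC1 : 0 < max C 1 := lt_max_of_lt_right one_pos
  obtain ⟨f, u, h, hfr, hur⟩ := hΩ z hz r hr (max C 1)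
  refine ⟨?_, ?_⟩
  · intro G hG
    obtain ⟨x, hx, y, hy, hxy, hlt⟩ := green_piece hC1 h hfr hur hG
    refine ⟨x, hx, y, hy, hxy, lt_of_le_of_lt ?_ hlt⟩
    exact mul_le_mul_of_nonneg_right (le_max_left _ _) (by positivity)
  · obtain ⟨hf, hus, hMem, hWeak⟩ := of_piece h
    obtain ⟨x₀, hx₀, hx₀u⟩ := h.pt
    have hI0 : 0 ≤ ∫ y, ((‖x₀ - y‖ ^ 2) ^ 7)⁻¹ * |f y| := integral_nonneg fun y => by positivity
    have hx₀r : x₀ ∈ Metric.ball z r := by
      by_contra hcon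
      rw [hur x₀ hcon, abs_zero] at hx₀u
      nlinarith
    refine ⟨f, u, ⟨hf.smooth, hf.compact, subset_inter hf.supp hfr⟩, hus, hur, hMem, hWeak,
      fun v h1 h2 => unique hΩo hMem hWeak h1 h2, x₀, ⟨hx₀, hx₀r⟩, ?_⟩
    simp only [hker]
    have hIΩ : ∫ y in Ω, ((‖x₀ - y‖ ^ 2) ^ 7)⁻¹ * |f y| =
        ∫ y, ((‖x₀ - y‖ ^ 2) ^ 7)⁻¹ * |f y| := by
      apply setIntegral_eq_integral_of_forall_compl_eq_zero
      intro y hy
      rw [image_eq_zero_of_notMem_tsupport (fun h => hy (hf.supp h)), abs_zero, mul_zero]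
    rw [hIΩ]
    refine lt_of_le_of_lt ?_ hx₀u
    exact mul_le_mul_of_nonneg_right (le_max_left _ _) hI0

end Pool.Agent.Results.MP_9ca4ac_an.EveryBoundaryPoint
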